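import Pool.Agent.X197.VRShadow

/-!
# MP_68dc86_gt, Q1: Vietoris-Rips shadows of compact sets need not be ANRs
-/

open Pool.Agent.X197.VRShadow

namespace Pool.Agent.Results.MP_68dc86_gt.ShadowNotANR

/-- For every `N ≥ 3` and every `β > 0` there is a nonempty compact, even countable, set
`M` in Euclidean `N`-space whose Vietoris-Rips shadow at scale `β` is not locally connected and not
an absolute neighbourhood retract. -/
theorem result : ∀ N : ℕ, 3 ≤ N → ∀ β : ℝ, 0 < β → ∃ M : Set (EuclideanSpace ℝ (Fin N)),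
    M.Nonempty ∧ IsCompact M ∧ M.Countable ∧ ¬ LocallyConnectedSpace (Shadow β M) ∧
      ¬ IsANR (Shadow β M) := by
  intro N hN β hβ
  obtain ⟨n, rfl⟩ : ∃ n, N = n + 3 := ⟨N - 3, by omega⟩
  exact ⟨M n β, nonempty_M n β, isCompact_M n β, countable_M n β, not_locallyConnected hβ,
    not_isANR hβ⟩

end Pool.Agent.Results.MP_68dc86_gt.ShadowNotANR
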